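import Mathlib

/-!
# External contextual grammars with selection languages of a given kind

Letters are natural numbers; an alphabet is a finite set of letters.
-/

set_option autoImplicit false

namespace Pool.Agent.R551.CG

/-- `Over U w`: the word `w` is a word over the alphabet `U`. -/
def Over (U : Set ℕ) (w : List ℕ) : Prop := ∀ a ∈ w, a ∈ U

/-- `S` is an ordered language with respect to the alphabet `U`: it is accepted by a complete
deterministic finite automaton with input alphabet `U` and a total order on its states (they are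
`0 < 1 < … < n - 1` here) such that every letter of `U` acts monotonically. -/
def Ordered (U : Set ℕ) (S : Set (List ℕ)) : Prop :=
  ∃ (n : ℕ) (δ : Fin n → ℕ → Fin n) (z₀ : Fin n) (F : Set (Fin n)),
    (∀ a ∈ U, ∀ z z' : Fin n, z ≤ z' → δ z a ≤ δ z' a) ∧
    S = {w | Over U w ∧ w.foldl δ z₀ ∈ F}

/-- `S` is strictly locally `k`-testable with respect to the alphabet `U`: there are sets `B`, `I`
and `E` of words of length `k` over `U` such that a word `w` over `U` of length `n ≥ k` is in `S`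
iff its prefix of length `k` is in `B`, its suffix of length `k` is in `E`, and all its factors
`w_{j+1} … w_{j+k}` with `1 ≤ j ≤ n - k - 1` are in `I`. -/
def StrictlyLocallyTestable (k : ℕ) (U : Set ℕ) (S : Set (List ℕ)) : Prop :=
  (∀ w ∈ S, Over U w) ∧
  ∃ B I E : Set (List ℕ),
    (∀ w ∈ B ∪ I ∪ E, w.length = k ∧ Over U w) ∧
    ∀ w : List ℕ, Over U w → k ≤ w.length →
      (w ∈ S ↔ w.take k ∈ B ∧ w.drop (w.length - k) ∈ E ∧
        ∀ j, 1 ≤ j → j + k + 1 ≤ w.length → (w.drop j).take k ∈ I)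

/-- A contextual grammar: a finite alphabet `V`, a finite set `P` of selection pairs `(S, C)`
where `C` is a finite set of contexts `(u, v)`, and a finite set `A` of axioms. -/
structure Grammar where
  /-- the alphabet -/
  V : Finset ℕ
  /-- the selection pairs -/
  P : Set (Set (List ℕ) × Set (List ℕ × List ℕ))
  /-- the axioms -/
  A : Set (List ℕ)
  finite_P : P.Finite
  finite_A : A.Finite
  finite_C : ∀ p ∈ P, p.2.Finite
  over_A : ∀ w ∈ A, Over V w
  over_C : ∀ p ∈ P, ∀ c ∈ p.2, Over V c.1 ∧ Over V c.2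

namespace Grammar

variable (G : Grammar)

/-- An external derivation step: `x` is turned into `u x v` if `x ∈ S` and `(u, v) ∈ C` for some
selection pair `(S, C)`. -/
def Step (x y : List ℕ) : Prop :=
  ∃ p ∈ G.P, x ∈ p.1 ∧ ∃ c ∈ p.2, y = c.1 ++ x ++ c.2

/-- The generated language. -/
def lang : Set (List ℕ) := {w | ∃ a ∈ G.A, Relation.ReflTransGen G.Step a w}

end Grammar

/-- The languages generated by grammars all whose selection languages lie in `Fam`: every
selection language is a language over some subalphabet `U` of the alphabet of the grammar, and it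
lies in `Fam` when it is regarded as a language over `U`. -/
def EC (Fam : Set ℕ → Set (List ℕ) → Prop) : Set (Set (List ℕ)) :=
  {L | ∃ G : Grammar, (∀ p ∈ G.P, ∃ U : Set ℕ, U ⊆ (G.V : Set ℕ) ∧ Fam U p.1) ∧ G.lang = L}

/-! ### Monotone actions -/

section Act

variable {n : ℕ} (δ : Fin n → ℕ → Fin n)

/-- the action of a word -/
def act (w : List ℕ) (s : Fin n) : Fin n := w.foldl δ s

theorem act_append (v w : List ℕ) (s : Fin n) : act δ (v ++ w) s = act δ w (act δ v s) := by
  simp [act, List.foldl_append]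

theorem act_mono {U : Set ℕ} (hδ : ∀ a ∈ U, ∀ z z' : Fin n, z ≤ z' → δ z a ≤ δ z' a)
    (w : List ℕ) (hw : Over U w) {s t : Fin n} (h : s ≤ t) : act δ w s ≤ act δ w t := by
  induction w generalizing s t with
  | nil => exact h
  | cons a w ih =>
    have ha : a ∈ U := hw a (by simp)
    exact ih (fun b hb => hw b (by simp [hb])) (hδ a ha s t h)

/-- A strictly monotone self-map of a finite set of states is the identity. -/
theorem eq_of_strictMono (I : Finset (Fin n)) (g : Fin n → Fin n) (hg : ∀ x ∈ I, g x ∈ I)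
    (hinj : Set.InjOn g I) (hmono : ∀ x y, x ≤ y → g x ≤ g y) : ∀ x ∈ I, g x = x := by
  let f : {x // x ∈ I} → {x // x ∈ I} := fun x => ⟨g x.1, hg x.1 x.2⟩
  have hf : StrictMono f := by
    intro x y hxy
    have h1 : g x.1 ≤ g y.1 := hmono _ _ hxy.le
    refine lt_of_le_of_ne h1 fun h => ?_
    have h2 : g x.1 = g y.1 := congrArg Subtype.val h
    have h3 := hinj x.2 y.2 h2
    exact absurd (Subtype.ext h3) hxy.ne
  intro x hx
  have h1 : (⟨x, hx⟩ : {x // x ∈ I}) ≤ f ⟨x, hx⟩ := hf.le_apply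
  have h2 : f ⟨x, hx⟩ ≤ (⟨x, hx⟩ : {x // x ∈ I}) := hf.apply_le
  exact le_antisymm h2 h1

/-- There is a word `e` in `T` with `e t e = e` for all `t` in `T` (as maps). -/
theorem exists_min {U : Set ℕ} (hδ : ∀ a ∈ U, ∀ z z' : Fin n, z ≤ z' → δ z a ≤ δ z' a)
    (T : Set (List ℕ)) (hne : T.Nonempty) (hmul : ∀ v ∈ T, ∀ w ∈ T, v ++ w ∈ T)
    (hT : ∀ v ∈ T, Over U v) :
    ∃ e ∈ T, ∀ t ∈ T, ∀ s : Fin n, act δ (e ++ t ++ e) s = act δ e s := by
  classical
  obtain ⟨e, he, hmin⟩ := WellFounded.has_min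
    (measure fun v : List ℕ => (Finset.univ.image (act δ v)).card).wf T hne
  refine ⟨e, he, fun t ht s => ?_⟩
  set I := Finset.univ.image (act δ e) with hI
  have h1 : ∀ x ∈ I, act δ (t ++ e) x ∈ I := by
    intro x _
    rw [act_append]
    exact Finset.mem_image_of_mem _ (Finset.mem_univ _)
  have h2 : Finset.univ.image (act δ (e ++ (t ++ e))) = I.image (act δ (t ++ e)) := by
    rw [hI, Finset.image_image]
    refine Finset.image_congr fun x _ => ?_
    rw [act_append]
    rfl
  have h3 : I.card ≤ (I.image (act δ (t ++ e))).card := by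
    have h := hmin (e ++ (t ++ e)) (hmul _ he _ (hmul _ ht _ he))
    rw [← h2]
    exact not_lt.1 h
  have h4 : Set.InjOn (act δ (t ++ e)) I :=
    Finset.card_image_iff.1 (le_antisymm Finset.card_image_le h3)
  have h5 := eq_of_strictMono I (act δ (t ++ e)) h1 h4
    (fun x y hxy => act_mono δ hδ _ (hT _ (hmul _ ht _ he)) hxy)
    (act δ e s) (Finset.mem_image_of_mem _ (Finset.mem_univ _))
  rw [List.append_assoc, act_append]
  exact h5

end Act

/-! ### The example -/

/-- the alphabet `X = 0, Y = 1, Z = 2, p = 3, q = 4, r = 5` -/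
def U6 : Set ℕ := {a | a < 6}

/-- the forbidden factors are `Y p`, `X q` and `Z r` -/
def Ok (a b : ℕ) : Prop := ¬ (a = 1 ∧ b = 3) ∧ ¬ (a = 0 ∧ b = 4) ∧ ¬ (a = 2 ∧ b = 5)

instance (a b : ℕ) : Decidable (Ok a b) := by unfold Ok; infer_instance

/-- the words over the alphabet without forbidden factors -/
def S₀ : Set (List ℕ) := {w | Over U6 w ∧ w.IsChain Ok}

/-- the language `U* ∪ c S₀ c` with `c = 6` -/
def L₀ : Set (List ℕ) := {w | Over U6 w} ∪ {y | ∃ w ∈ S₀, y = 6 :: w ++ [6]}

/-- loops at the letter `X` -/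
def T₀ : Set (List ℕ) := {t | Over U6 t ∧ (0 :: t).IsChain Ok ∧ (0 :: t).getLast? = some 0}

theorem T₀_mul : ∀ v ∈ T₀, ∀ w ∈ T₀, v ++ w ∈ T₀ := by
  rintro v ⟨hv1, hv2, hv3⟩ w ⟨hw1, hw2, hw3⟩
  refine ⟨?_, ?_, ?_⟩
  · intro a ha
    rcases List.mem_append.1 ha with h | h
    · exact hv1 a h
    · exact hw1 a h
  · rw [← List.cons_append]
    cases w with
    | nil => simpa using hv2
    | cons b w =>
      rw [List.isChain_append]
      refine ⟨hv2, ?_, ?_⟩
      · rw [List.isChain_cons_cons] at hw2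
        exact hw2.2
      · intro x hx y hy
        rw [hv3] at hx
        simp only [Option.mem_def, Option.some.injEq] at hx
        simp only [List.head?_cons, Option.mem_def, Option.some.injEq] at hy
        subst hx hy
        rw [List.isChain_cons_cons] at hw2
        exact hw2.1
  · rw [← List.cons_append]
    cases w with
    | nil => simpa using hv3
    | cons b w =>
      rw [List.getLast?_append_of_ne_nil _ (by simp)]
      simpa using hw3

theorem T₀_chain {v : List ℕ} (hv : v ∈ T₀) {w : List ℕ} (h : (0 :: w).IsChain Ok) :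
    (0 :: (v ++ w)).IsChain Ok := by
  obtain ⟨_, hv2, hv3⟩ := hv
  rw [← List.cons_append]
  cases w with
  | nil => simpa using hv2
  | cons b w =>
    rw [List.isChain_append]
    rw [List.isChain_cons_cons] at h
    refine ⟨hv2, h.2, ?_⟩
    intro x hx y hy
    rw [hv3] at hx
    simp only [Option.mem_def, Option.some.injEq] at hx
    simp only [List.head?_cons, Option.mem_def, Option.some.injEq] at hy
    subst hx hy
    exact h.1

theorem mem_T₀_of {t : List ℕ} (h1 : ∀ a ∈ t, a < 6) (h2 : (0 :: t).IsChain Ok)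
    (h3 : (0 :: t).getLast? = some 0) : t ∈ T₀ := ⟨h1, h2, h3⟩

theorem t1 : ([3, 0] : List ℕ) ∈ T₀ := mem_T₀_of (by decide) (by decide) (by decide)
theorem t2 : ([2, 3, 0] : List ℕ) ∈ T₀ := mem_T₀_of (by decide) (by decide) (by decide)
theorem t3 : ([5, 0] : List ℕ) ∈ T₀ := mem_T₀_of (by decide) (by decide) (by decide)
theorem t4 : ([1, 5, 0] : List ℕ) ∈ T₀ := mem_T₀_of (by decide) (by decide) (by decide)
theorem t5 : ([1, 4, 0] : List ℕ) ∈ T₀ := mem_T₀_of (by decide) (by decide) (by decide)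
theorem t6 : ([2, 4, 0] : List ℕ) ∈ T₀ := mem_T₀_of (by decide) (by decide) (by decide)
theorem t7 : ([1, 4, 2, 3, 5, 0] : List ℕ) ∈ T₀ := mem_T₀_of (by decide) (by decide) (by decide)

/-- `t` begins with a forbidden factor when it follows the letter `X`. -/
def Bad (t : List ℕ) : Prop := t = [1, 3, 0] ∨ t = [2, 5, 0] ∨ t = [4, 0]

/-- the key step: some bad word can be inserted -/
theorem exists_bad {n : ℕ} (δ : Fin n → ℕ → Fin n)
    (hδ : ∀ a ∈ U6, ∀ z z' : Fin n, z ≤ z' → δ z a ≤ δ z' a) (e : List ℕ) (heU : Over U6 e)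
    (he : ∀ t ∈ T₀, ∀ s : Fin n, act δ (e ++ t ++ e) s = act δ e s) (s : Fin n) :
    ∃ t, Bad t ∧ act δ (e ++ t ++ e) s = act δ e s := by
  set σ := act δ e s with hσ
  have key : ∀ t ∈ T₀, act δ (t ++ e) σ = σ := by
    intro t ht
    have h := he t ht s
    rw [List.append_assoc, act_append] at h
    exact h
  have mono : ∀ w : List ℕ, (∀ a ∈ w, a < 6) → ∀ x y : Fin n, x ≤ y →
      act δ (w ++ e) x ≤ act δ (w ++ e) y := by
    intro w hw x y hxy
    refine act_mono δ hδ _ ?_ hxy
    intro a ha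
    rcases List.mem_append.1 ha with h | h
    · exact hw a h
    · exact heU a h
  have e1 : act δ ([2, 3, 0] ++ e) σ = act δ ([3, 0] ++ e) (act δ [2] σ) := rfl
  have e2 : act δ ([1, 5, 0] ++ e) σ = act δ ([5, 0] ++ e) (act δ [1] σ) := rfl
  have e3 : act δ ([1, 4, 0] ++ e) σ = act δ ([4, 0] ++ e) (act δ [1] σ) := rfl
  have e4 : act δ ([2, 4, 0] ++ e) σ = act δ ([4, 0] ++ e) (act δ [2] σ) := rfl
  have e5 : act δ ([1, 3, 0] ++ e) σ = act δ ([3, 0] ++ e) (act δ [1] σ) := rfl
  have e6 : act δ ([2, 5, 0] ++ e) σ = act δ ([5, 0] ++ e) (act δ [2] σ) := rfl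
  have k1 := key _ t1
  have k2 := key _ t2
  have k3 := key _ t3
  have k4 := key _ t4
  have k5 := key _ t5
  have k6 := key _ t6
  rw [e1] at k2
  rw [e2] at k4
  rw [e3] at k5
  rw [e4] at k6
  have m3 := mono [3, 0] (by decide)
  have m5 := mono [5, 0] (by decide)
  have m4 := mono [4, 0] (by decide)
  set b := act δ [1] σ with hb
  set c := act δ [2] σ with hc
  -- the median of `σ`, `b`, `c`
  have hmed : (σ ≤ b ∧ b ≤ c ∨ c ≤ b ∧ b ≤ σ) ∨ (σ ≤ c ∧ c ≤ b ∨ b ≤ c ∧ c ≤ σ) ∨
      (b ≤ σ ∧ σ ≤ c ∨ c ≤ σ ∧ σ ≤ b) := by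
    rcases le_total σ b with h1 | h1 <;> rcases le_total b c with h2 | h2 <;>
      rcases le_total σ c with h3 | h3 <;> tauto
  have concl : ∀ t, Bad t → act δ (t ++ e) σ = σ → ∃ t, Bad t ∧ act δ (e ++ t ++ e) s = σ := by
    intro t ht h
    refine ⟨t, ht, ?_⟩
    rw [List.append_assoc, act_append]
    exact h
  rcases hmed with (⟨h1, h2⟩ | ⟨h1, h2⟩) | (⟨h1, h2⟩ | ⟨h1, h2⟩) | (⟨h1, h2⟩ | ⟨h1, h2⟩)
  · refine concl _ (Or.inl rfl) ?_
    rw [e5]
    exact le_antisymm ((m3 _ _ h2).trans k2.le) (k1.ge.trans (m3 _ _ h1))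
  · refine concl _ (Or.inl rfl) ?_
    rw [e5]
    exact le_antisymm ((m3 _ _ h2).trans k1.le) (k2.ge.trans (m3 _ _ h1))
  · refine concl _ (Or.inr (Or.inl rfl)) ?_
    rw [e6]
    exact le_antisymm ((m5 _ _ h2).trans k4.le) (k3.ge.trans (m5 _ _ h1))
  · refine concl _ (Or.inr (Or.inl rfl)) ?_
    rw [e6]
    exact le_antisymm ((m5 _ _ h2).trans k3.le) (k4.ge.trans (m5 _ _ h1))
  · refine concl _ (Or.inr (Or.inr rfl)) ?_
    exact le_antisymm ((m4 _ _ h2).trans k6.le) (k5.ge.trans (m4 _ _ h1))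
  · refine concl _ (Or.inr (Or.inr rfl)) ?_
    exact le_antisymm ((m4 _ _ h2).trans k5.le) (k6.ge.trans (m4 _ _ h1))

end Pool.Agent.R551.CG
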