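import Pool.Agent.R551.CG.Defs

/-!
# Internal contextual grammars with selection
-/

set_option autoImplicit false

namespace Pool.Agent.R551.CG

namespace Grammar

variable (G : Grammar)

/-- An internal derivation step: `x = x₁ x₂ x₃` is turned into `x₁ u x₂ v x₃` if `x₂ ∈ S` and
`(u, v) ∈ C` for some selection pair `(S, C)`. -/
def IStep (x y : List ℕ) : Prop :=
  ∃ p ∈ G.P, ∃ x₁ x₂ x₃ : List ℕ, x = x₁ ++ x₂ ++ x₃ ∧ x₂ ∈ p.1 ∧
    ∃ c ∈ p.2, y = x₁ ++ c.1 ++ x₂ ++ c.2 ++ x₃

/-- The language generated by internal derivations. -/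
def ilang : Set (List ℕ) := {w | ∃ a ∈ G.A, Relation.ReflTransGen G.IStep a w}

end Grammar

/-- The languages generated by internal contextual grammars all whose selection languages lie in
`Fam`, relative to the alphabet of the grammar. -/
def IC (Fam : Set ℕ → Set (List ℕ) → Prop) : Set (Set (List ℕ)) :=
  {L | ∃ G : Grammar, (∀ p ∈ G.P, Fam (G.V : Set ℕ) p.1) ∧ G.ilang = L}

/-- `S` is accepted by a complete deterministic finite automaton with input alphabet `V` and at
most `n` states. -/
def RegStates (n : ℕ) (V : Set ℕ) (S : Set (List ℕ)) : Prop :=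
  ∃ k ≤ n, ∃ (δ : Fin k → ℕ → Fin k) (z₀ : Fin k) (F : Set (Fin k)),
    S = {w | Over V w ∧ w.foldl δ z₀ ∈ F}

/-- `S` is a regular suffix-closed language over `V`. -/
def SuffixClosed (V : Set ℕ) (S : Set (List ℕ)) : Prop :=
  (∃ n, RegStates n V S) ∧ ∀ x y : List ℕ, x ++ y ∈ S → y ∈ S

/-- automata with other types of states -/
theorem regStates_of_fintype {σ : Type} [Fintype σ] (V : Set ℕ) (δ : σ → ℕ → σ) (z₀ : σ)
    (F : Set σ) : RegStates (Fintype.card σ) V {w | Over V w ∧ w.foldl δ z₀ ∈ F} := by
  classical
  let e := Fintype.equivFin σ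
  refine ⟨Fintype.card σ, le_rfl, fun s a => e (δ (e.symm s) a), e z₀, {s | e.symm s ∈ F}, ?_⟩
  have h : ∀ (w : List ℕ) (s : σ),
      w.foldl (fun s a => e (δ (e.symm s) a)) (e s) = e (w.foldl δ s) := by
    intro w
    induction w with
    | nil => exact fun _ => rfl
    | cons a w ih =>
      intro s
      simp only [List.foldl_cons, Equiv.symm_apply_apply]
      exact ih _
  ext w
  show _ ∧ _ ↔ _ ∧ e.symm _ ∈ F
  rw [h, Equiv.symm_apply_apply]

/-! ### The example: `e = 0`, `a = 1`, `f = 2`, `h = 3`, `b = 4` -/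

/-- the alphabet -/
def V5 : Finset ℕ := Finset.range 5

/-- sorted words over `e, a, f` with at most `m` letters `a` -/
def Sel (m : ℕ) : Set (List ℕ) :=
  {w | Over (V5 : Set ℕ) w ∧ ((∀ x ∈ w, x < 3) ∧ w.Pairwise (· ≤ ·) ∧ w.count 1 ≤ m)}

/-- an automaton for `Sel m` -/
def stepS (m : ℕ) : Option (Fin 3 × Fin (m + 1)) → ℕ → Option (Fin 3 × Fin (m + 1))
  | none, _ => none
  | some (l, c), a =>
    if h : a < 3 ∧ l.1 ≤ a ∧ c.1 + (if a = 1 then 1 else 0) < m + 1 then
      some (⟨a, h.1⟩, ⟨c.1 + (if a = 1 then 1 else 0), h.2.2⟩)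
    else none

theorem foldl_none (m : ℕ) (w : List ℕ) : w.foldl (stepS m) none = none := by
  induction w with
  | nil => rfl
  | cons a w ih => exact ih

theorem foldl_stepS (m : ℕ) (w : List ℕ) (l : Fin 3) (c : Fin (m + 1)) :
    w.foldl (stepS m) (some (l, c)) ≠ none ↔
      (∀ x ∈ w, x < 3) ∧ (l.1 :: w).Pairwise (· ≤ ·) ∧ c.1 + w.count 1 ≤ m := by
  induction w generalizing l c with
  | nil =>
    simp only [List.foldl_nil, ne_eq, reduceCtorEq, not_false_eq_true, List.not_mem_nil,
      false_implies, implies_true, List.pairwise_singleton, List.count_nil, add_zero, true_and,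
      true_iff]
    omega
  | cons a w ih =>
    rw [List.foldl_cons]
    by_cases h : a < 3 ∧ l.1 ≤ a ∧ c.1 + (if a = 1 then 1 else 0) < m + 1
    · have hs : stepS m (some (l, c)) a
          = some (⟨a, h.1⟩, ⟨c.1 + (if a = 1 then 1 else 0), h.2.2⟩) := by
        simp only [stepS, dif_pos h]
      rw [hs, ih]
      simp only [List.mem_cons, forall_eq_or_imp, List.count_cons, List.pairwise_cons]
      constructor
      · rintro ⟨h1, ⟨h2, h3⟩, h4⟩
        refine ⟨⟨h.1, h1⟩, ⟨⟨h.2.1, fun x hx => h.2.1.trans (h2 x hx)⟩, h2, h3⟩, ?_⟩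
        have e : (if a = 1 then 1 else 0) = if (a == 1) = true then 1 else 0 := by simp
        omega
      · rintro ⟨⟨_, h1⟩, ⟨_, h2, h3⟩, h4⟩
        refine ⟨h1, ⟨h2, h3⟩, ?_⟩
        have e : (if a = 1 then 1 else 0) = if (a == 1) = true then 1 else 0 := by simp
        omega
    · have hs : stepS m (some (l, c)) a = none := by
        simp only [stepS, dif_neg h]
      rw [hs, foldl_none]
      simp only [ne_eq, not_true_eq_false, false_iff, List.mem_cons, forall_eq_or_imp,
        List.count_cons, List.pairwise_cons]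
      rintro ⟨⟨h1, _⟩, ⟨⟨h2, _⟩, _⟩, h4⟩
      refine h ⟨h1, h2, ?_⟩
      have e : (if a = 1 then 1 else 0) = if (a == 1) = true then 1 else 0 := by simp
      omega

theorem suffixClosed_Sel (m : ℕ) : SuffixClosed (V5 : Set ℕ) (Sel m) := by
  constructor
  · refine ⟨Fintype.card (Option (Fin 3 × Fin (m + 1))), ?_⟩
    have h := regStates_of_fintype (V5 : Set ℕ) (stepS m)
      (some (⟨0, by omega⟩, ⟨0, by omega⟩)) {s | s ≠ none}
    convert h using 1
    ext w
    show _ ∧ _ ↔ _ ∧ _ ≠ none
    rw [foldl_stepS]
    simp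
  · rintro x y ⟨h1, h2, h3, h4⟩
    refine ⟨fun a ha => h1 a (by simp [ha]), fun a ha => h2 a (by simp [ha]),
      (List.pairwise_append.1 h3).2.1, ?_⟩
    rw [List.count_append] at h4
    omega

theorem suffixClosed_univ : SuffixClosed (V5 : Set ℕ) {w | Over (V5 : Set ℕ) w} := by
  constructor
  · refine ⟨1, 1, le_rfl, fun _ _ => 0, 0, Set.univ, ?_⟩
    ext w
    show _ ↔ _ ∧ _ ∈ Set.univ
    simp
  · intro x y h a ha
    exact h a (by simp [ha])

/-- the grammar of the example -/
def GI (m : ℕ) : Grammar where
  V := V5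
  P := {({w | Over (V5 : Set ℕ) w}, {([0], [2, 3])}), (Sel m, {([0], [2])})}
  A := {w | ∃ j ≤ 2 * m, w = List.replicate j 1 ++ List.replicate (2 * m - j) 4}
  finite_P := Set.toFinite _
  finite_A := by
    refine Set.Finite.subset ((Finset.range (2 * m + 1)).image fun j =>
      List.replicate j 1 ++ List.replicate (2 * m - j) 4).finite_toSet ?_
    rintro w ⟨j, hj, rfl⟩
    simp only [Finset.coe_image, Finset.coe_range, Set.mem_image, Set.mem_Iio]
    exact ⟨j, by omega, rfl⟩
  finite_C := by
    rintro p (rfl | rfl) <;> exact Set.finite_singleton _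
  over_A := by
    rintro w ⟨j, _, rfl⟩ a ha
    simp only [List.mem_append, List.mem_replicate] at ha
    simp only [V5, Finset.coe_range, Set.mem_Iio]
    omega
  over_C := by
    rintro p (rfl | rfl) c (rfl)
    · constructor <;>
      · intro b hb
        simp only [List.mem_cons, List.not_mem_nil, or_false] at hb
        simp only [V5, Finset.coe_range, Set.mem_Iio]
        omega
    · constructor <;>
      · intro b hb
        simp only [List.mem_cons, List.not_mem_nil, or_false] at hb
        simp only [V5, Finset.coe_range, Set.mem_Iio]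
        omega

/-- the invariants of the words of the example -/
def Inv (m : ℕ) (w : List ℕ) : Prop :=
  (∀ x ∈ w, x < 5) ∧ w.count 1 + w.count 4 = 2 * m ∧ w.count 0 = w.count 2 ∧
    (w.Pairwise (· ≤ ·) → m < w.count 1 → w.count 0 = w.count 3)

theorem inv_of_mem {m : ℕ} {w : List ℕ} (hw : w ∈ (GI m).ilang) : Inv m w := by
  obtain ⟨a, ⟨j, hj, rfl⟩, h⟩ := hw
  induction h with
  | refl =>
    refine ⟨?_, ?_, ?_, ?_⟩
    · intro x hx
      simp only [List.mem_append, List.mem_replicate] at hx
      omega
    · simp [List.count_append, List.count_replicate]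
      omega
    · simp [List.count_append, List.count_replicate]
    · simp [List.count_append, List.count_replicate]
  | tail _ hs ih =>
    obtain ⟨p, hp, x₁, x₂, x₃, rfl, hx₂, c, hc, rfl⟩ := hs
    obtain ⟨i1, i2, i3, i4⟩ := ih
    rcases hp with rfl | rfl
    · rcases hc with rfl
      refine ⟨?_, ?_, ?_, ?_⟩
      · intro x hx
        simp only [List.mem_append, List.mem_cons, List.not_mem_nil, or_false] at hx
        rcases hx with (((h | h) | h) | (h | h)) | h
        · exact i1 x (by simp [h])
        · omega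
        · exact i1 x (by simp [h])
        · omega
        · omega
        · exact i1 x (by simp [h])
      · simp only [List.count_append] at i2 ⊢
        simp
        omega
      · simp only [List.count_append] at i3 ⊢
        simp
        omega
      · intro hs hm
        have hsub : (x₁ ++ x₂ ++ x₃).Sublist (x₁ ++ [0] ++ x₂ ++ [2, 3] ++ x₃) := by
          have h1 : x₁.Sublist (x₁ ++ [0]) := List.sublist_append_left _ _
          have h2 : (x₁ ++ x₂).Sublist (x₁ ++ [0] ++ x₂) := h1.append (List.Sublist.refl _)
          have h3 : (x₁ ++ x₂).Sublist (x₁ ++ [0] ++ x₂ ++ [2, 3]) :=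
            h2.trans (List.sublist_append_left _ _)
          exact h3.append (List.Sublist.refl _)
        have h5 := i4 (hs.sublist hsub) (by
          simp only [List.count_append] at hm ⊢
          simp at hm
          omega)
        simp only [List.count_append] at h5 ⊢
        simp
        omega
    · rcases hc with rfl
      refine ⟨?_, ?_, ?_, ?_⟩
      · intro x hx
        simp only [List.mem_append, List.mem_cons, List.not_mem_nil, or_false] at hx
        rcases hx with (((h | h) | h) | h) | h
        · exact i1 x (by simp [h])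
        · omega
        · exact i1 x (by simp [h])
        · omega
        · exact i1 x (by simp [h])
      · simp only [List.count_append] at i2 ⊢
        simp
        omega
      · simp only [List.count_append] at i3 ⊢
        simp
        omega
      · intro hs hm
        exfalso
        obtain ⟨_, _, _, hle⟩ := hx₂
        have h1 : x₁.count 1 = 0 := by
          rw [List.count_eq_zero]
          intro h
          have h2 : (x₁ ++ ([0] ++ x₂ ++ [2] ++ x₃)).Pairwise (· ≤ ·) := by
            simpa [List.append_assoc] using hs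
          have h3 := (List.pairwise_append.1 h2).2.2 1 h 0 (by simp)
          omega
        have h2 : x₃.count 1 = 0 := by
          rw [List.count_eq_zero]
          intro h
          have h3 := (List.pairwise_append.1 hs).2.2 2 (by simp) 1 h
          omega
        simp only [List.count_append] at hm
        simp at hm
        omega

theorem axiom_mem {m : ℕ} {j : ℕ} (hj : j ≤ 2 * m) :
    List.replicate j 1 ++ List.replicate (2 * m - j) 4 ∈ (GI m).ilang :=
  ⟨_, ⟨j, hj, rfl⟩, .refl⟩

theorem step_mem {m : ℕ} {x y : List ℕ} (hx : x ∈ (GI m).ilang) (h : (GI m).IStep x y) :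
    y ∈ (GI m).ilang := by
  obtain ⟨a, ha, hd⟩ := hx
  exact ⟨a, ha, hd.tail h⟩

theorem pw_append {l₁ l₂ : List ℕ} (c : ℕ) (h1 : l₁.Pairwise (· ≤ ·)) (h2 : l₂.Pairwise (· ≤ ·))
    (h3 : ∀ x ∈ l₁, x ≤ c) (h4 : ∀ x ∈ l₂, c ≤ x) : (l₁ ++ l₂).Pairwise (· ≤ ·) :=
  List.pairwise_append.2 ⟨h1, h2, fun a ha b hb => (h3 a ha).trans (h4 b hb)⟩

theorem pw_rep (n a : ℕ) : (List.replicate n a).Pairwise (· ≤ ·) :=
  List.pairwise_replicate.2 (Or.inr le_rfl)

theorem mem_rep_le {n a c : ℕ} (h : a ≤ c) : ∀ x ∈ List.replicate n a, x ≤ c := by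
  intro x hx
  rw [(List.mem_replicate.1 hx).2]
  exact h

theorem le_mem_rep {n a c : ℕ} (h : c ≤ a) : ∀ x ∈ List.replicate n a, c ≤ x := by
  intro x hx
  rw [(List.mem_replicate.1 hx).2]
  exact h

/-- the sorted word with `j` letters `a` between `β` letters `e` and `γ` letters `f` -/
theorem sel_block {m j β γ : ℕ} (hj : j ≤ m) :
    List.replicate β 0 ++ List.replicate j 1 ++ List.replicate γ 2 ∈ Sel m := by
  refine ⟨?_, ?_, ?_, ?_⟩
  · intro x hx
    simp only [List.mem_append, List.mem_replicate] at hx
    simp only [V5, Finset.coe_range, Set.mem_Iio]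
    omega
  · intro x hx
    simp only [List.mem_append, List.mem_replicate] at hx
    omega
  · refine pw_append 1 (pw_append 0 (pw_rep _ _) (pw_rep _ _) (mem_rep_le le_rfl)
      (le_mem_rep (by omega))) (pw_rep _ _) ?_ (le_mem_rep (by omega))
    intro x hx
    simp only [List.mem_append, List.mem_replicate] at hx
    omega
  · simp [List.count_append, List.count_replicate]
    exact hj

theorem over_block (β j γ : ℕ) :
    Over (V5 : Set ℕ) (List.replicate β 0 ++ List.replicate j 1 ++ List.replicate γ 2) :=
  (sel_block (m := j) le_rfl).1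

theorem mem_w (m k : ℕ) :
    List.replicate k 0 ++ List.replicate m 1 ++ List.replicate k 2 ++ List.replicate m 4
      ∈ (GI m).ilang := by
  induction k with
  | zero =>
    have h := axiom_mem (m := m) (j := m) (by omega)
    have e : 2 * m - m = m := by omega
    rw [e] at h
    simpa using h
  | succ k ih =>
    refine step_mem ih ⟨_, Or.inr rfl, [], List.replicate k 0 ++ List.replicate m 1 ++
      List.replicate k 2, List.replicate m 4, by simp, sel_block le_rfl, _, rfl, ?_⟩
    rw [show List.replicate (k + 1) (0 : ℕ) = [0] ++ List.replicate k 0 from rfl,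
      List.replicate_succ' (n := k) (a := 2)]
    simp [List.append_assoc]

theorem mem_y (m j k : ℕ) (hj : j ≤ 2 * m) :
    List.replicate k 0 ++ List.replicate j 1 ++ List.replicate k 2 ++
      (List.replicate k 3 ++ List.replicate (2 * m - j) 4) ∈ (GI m).ilang := by
  induction k with
  | zero => simpa using axiom_mem hj
  | succ k ih =>
    refine step_mem ih ⟨_, Or.inl rfl, [], List.replicate k 0 ++ List.replicate j 1 ++
      List.replicate k 2, List.replicate k 3 ++ List.replicate (2 * m - j) 4, by simp,
      over_block _ _ _, _, rfl, ?_⟩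
    rw [show List.replicate (k + 1) (0 : ℕ) = [0] ++ List.replicate k 0 from rfl,
      List.replicate_succ' (n := k) (a := 2),
      show List.replicate (k + 1) (3 : ℕ) = [3] ++ List.replicate k 3 from rfl]
    simp [List.append_assoc]

end Pool.Agent.R551.CG
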